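import Pool.Agent.Helper57_C2.Stmts
import Pool.Agent.Helper35_K9.CHQ
import Pool.Agent.Helper57_K9.Gq9
import Pool.Agent.Helper69_K9.Fmg
import Pool.Agent.Helper9_PP.Add

/-!
# Squad C2, row YQZ: the terms which vanish
-/

open scoped BigOperators

noncomputable section

namespace Pool.Agent.PP.C2.H27

open Pool.Agent.Helper51_AWC Pool.Agent.Helper79_WRA Pool.Agent.PP Pool.Agent.PP.KF
open Pool.Agent.PP.K9 Pool.Agent.PP.C2

attribute [local instance] Ideal.Quotient.field

/-- `V ≃* conjS g V` -/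
def eqC {G : Type} [Group G] (g : G) (V : Subgroup G) : V ≃* conjS g V :=
  V.equivMapOfInjective _ (MulAut.conj g).injective

theorem eqC_apply {G : Type} [Group G] (g : G) (V : Subgroup G) (v : V) :
    ((eqC g V v : conjS g V) : G) = g * v * g⁻¹ := rfl

/-- A block whose defect groups are cyclic and not trivial. -/
theorem yy_cyc {ℓ : ℕ} [Fact ℓ.Prime] {M : Ideal (integralClosure ℤ ℂ)} [M.IsMaximal]
    (hM : (ℓ : integralClosure ℤ ℂ) ∈ M) {A : Type} [Group A] [Finite A] {f : A → FF M}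
    (hf : IsBlk f) {R : Subgroup A} (hR : Tp ℓ f R) (hc : IsCyclic R) (h1 : R ≠ ⊥) :
    YY ℓ ⊤ f = 0 := by
  have hpr : ℓ.Prime := Fact.out
  have hF : GoodF ℓ (FF M) := H50.fld ℓ hpr M hM
  have hfin : Finite R := inferInstance
  -- a subgroup of order `ℓ`
  have hdv : ℓ ∣ Nat.card R := by
    obtain ⟨k, hk⟩ := IsPGroup.iff_card.1 hR.pg
    rw [hk]
    apply dvd_pow_self
    rintro rfl
    rw [pow_zero] at hk
    exact h1 (Subgroup.card_eq_one.1 hk)
  obtain ⟨y, hy⟩ := exists_prime_orderOf_dvd_card' ℓ hdv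
  have hy' : orderOf (y : A) = ℓ := by rw [Subgroup.orderOf_coe, hy]
  have hcard : Nat.card (Subgroup.zpowers (y : A)) = ℓ := by rw [Nat.card_zpowers, hy']
  have hle : Subgroup.zpowers (y : A) ≤ R := Subgroup.zpowers_le.2 y.2
  have hg : Gd f (Subgroup.zpowers (y : A)) := by
    obtain ⟨g, hg, hg2⟩ := hR.gd
    exact ⟨g, Subgroup.centralizer_le hle hg, hg2⟩
  have hpos : Pos ℓ f ⊤ := by
    intro x _ hx
    have h2 : (Subgroup.centralizer ({x} : Set A) ⊓ ⊤ : Subgroup A) =
        Subgroup.centralizer ({x} : Set A) := inf_top_eq _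
    rw [h2] at hx
    exact H35.nil_of_good hF hf hcard hg hx
  refine CD2.Asm.d2a_ ℓ (FF M) hF A ⊤ inferInstance f hf.1 hpos
    ⟨f, hf.1, fun x hx => absurd (Subgroup.mem_top x) hx, hf.1.2, fun Q _ hQp hbr => ?_⟩
  have h2 : Gd f Q := by
    by_contra hcon
    apply hbr
    funext t
    by_cases ht : t ∈ Subgroup.centralizer (Q : Set A)
    · rw [H66.br_of_mem ht]
      by_contra h3
      exact hcon ⟨t, ht, h3⟩
    · rw [H66.br_of_not_mem ht]
      rfl
  obtain ⟨g, hg⟩ := (H69.fmg ℓ M hM A f hf R hR).1 Q hQp h2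
  have : IsCyclic (conjS g R) := isCyclic_of_surjective (eqC g R).toMonoidHom (eqC g R).surjective
  exact isCyclic_of_injective (Subgroup.inclusion hg) (Subgroup.inclusion_injective hg)

theorem yqz (duv : DuvStmt) (tyq : TyqStmt) : YqzStmt := by
  intro ℓ _ M _ hM n hn IH G _ _ e he V hV hT Q₁ hQ₁ Q hQp hQ1 hQV hcj
  have hpr : ℓ.Prime := Fact.out
  have hF : GoodF ℓ (FF M) := H50.fld ℓ hpr M hM
  set p := QuotientGroup.mk' (Q.subgroupOf (Subgroup.normalizer (Q : Set G))) with hp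
  have hps : Function.Surjective p := QuotientGroup.mk'_surjective _
  have hpk : p.ker = Q.subgroupOf (Subgroup.normalizer (Q : Set G)) := QuotientGroup.ker_mk' _
  have hpk2 : ∀ t : Subgroup.normalizer (Q : Set G), t ∈ p.ker ↔ (t : G) ∈ Q := by
    intro t
    rw [hpk]
    exact Subgroup.mem_subgroupOf
  have hid : IsIdem (fun t : Subgroup.normalizer (Q : Set G) => br Q e t) :=
    (H20.brm ℓ (FF M) hF G Q _ hQp (Subgroup.centralizer_le_normalizer _) le_rfl).2.2 e he.1
  have hid2 := H75.push_isIdem hps hid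
  refine H9.addStmt ℓ (FF M) hF _ ⊤ inferInstance _ hid2 fun f hf hef => ?_
  obtain ⟨R, hR, g, hg⟩ := duv ℓ M hM G e he V hV hT.comm Q hQp _ p hps hpk f hf hef
  -- the isomorphism
  have E1 : R.comap p ≃* upm p R :=
    (R.comap p).equivMapOfInjective _ (Subgroup.subtype_injective _)
  have hcardV : Nat.card (R.comap p) = Nat.card V := by
    rw [Nat.card_congr E1.toEquiv, hg, Nat.card_congr (eqC g V).toEquiv.symm]
  have hcardQ : Nat.card p.ker = Nat.card Q := by
    rw [hpk]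
    exact Nat.card_congr (Subgroup.subgroupOfEquivOfLe Subgroup.le_normalizer).toEquiv
  have hcardR : Nat.card Q * Nat.card R = Nat.card V := by
    rw [← hcardQ, ← H75.card_comap hps R, hcardV]
  have hRne : R ≠ ⊥ := by
    rintro rfl
    rw [Subgroup.card_bot, mul_one] at hcardR
    exact hQV hcardR
  by_cases hc : IsCyclic R
  · exact yy_cyc hM hf hR hc hRne
  -- the elements of the preimage
  have hmem : ∀ x : R.comap p, g⁻¹ * ((x : Subgroup.normalizer (Q : Set G)) : G) * g ∈ V := by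
    intro x
    rw [← mem_conjS, ← hg]
    exact ⟨x, x.2, rfl⟩
  have hmem2 : ∀ v ∈ V, ∃ x : R.comap p,
      ((x : Subgroup.normalizer (Q : Set G)) : G) = g * v * g⁻¹ := by
    intro v hv
    have h1 : g * v * g⁻¹ ∈ upm p R := by
      rw [hg, mem_conjS]
      have h2 : g⁻¹ * (g * v * g⁻¹) * g = v := by group
      rwa [h2]
    obtain ⟨x, hx, hx2⟩ := h1
    exact ⟨⟨x, hx⟩, hx2⟩
  have hcomm : ∀ a b : R.comap p, a * b = b * a := by
    intro a b
    have h1 := hT.comm _ (hmem a) _ (hmem b)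
    apply Subtype.ext
    apply Subtype.ext
    simp only [Subgroup.coe_mul]
    set a' := ((a : Subgroup.normalizer (Q : Set G)) : G)
    set b' := ((b : Subgroup.normalizer (Q : Set G)) : G)
    calc a' * b' = g * (g⁻¹ * a' * g * (g⁻¹ * b' * g)) * g⁻¹ := by group
      _ = g * (g⁻¹ * b' * g * (g⁻¹ * a' * g)) * g⁻¹ := by rw [h1]
      _ = b' * a' := by group
  have E2 : V ≃* R.comap p :=
    (eqC g V).trans ((MulEquiv.subgroupCongr hg.symm).trans E1.symm)
  have hord : ∃ u : R.comap p, orderOf u = ℓ ^ n := by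
    obtain ⟨u, hu, hu2⟩ := hT.gen
    refine ⟨E2 ⟨u, hu⟩, ?_⟩
    rw [MulEquiv.orderOf_eq, ← hu2]
    exact (Subgroup.orderOf_coe (⟨u, hu⟩ : V)).symm
  have hnc : ¬ IsCyclic (R.comap p) := by
    intro h
    exact hT.ncyc (isCyclic_of_surjective E2.symm.toMonoidHom E2.symm.surjective)
  obtain ⟨i, hi1, hin, hcR, ⟨a, ha⟩, hcommR, hker⟩ := tyq ℓ (R.comap p) R n (by omega) hcomm
    (by rw [hcardV, hT.card]) hord hnc (p.subgroupComap R)
    (p.subgroupComap_surjective_of_surjective R hps) hc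
  have hker2 : ∀ x : R.comap p, x ∈ (p.subgroupComap R).ker ↔
      ((x : Subgroup.normalizer (Q : Set G)) : G) ∈ Q := by
    intro x
    rw [← hpk2, MonoidHom.mem_ker, MonoidHom.mem_ker]
    constructor
    · intro h
      have := congrArg Subtype.val h
      exact this
    · intro h
      exact Subtype.ext h
  have hine : i ≠ n := by
    rintro rfl
    rw [hcR, hT.card] at hcardR
    have h2 : Nat.card Q = 1 := by
      have h3 : 0 < ℓ ^ (i + 1) := pow_pos hpr.pos _
      exact Nat.eq_of_mul_eq_mul_right h3 (by rw [hcardR, one_mul])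
    exact hQ1 (Subgroup.card_eq_one.1 h2)
  by_cases hi : 2 ≤ i
  · refine IH i hi (by omega) _ f hf R hR ⟨?_, hcR, ⟨a, a.2, ?_⟩, hc⟩
    · intro x hx y hy
      exact congrArg Subtype.val (hcommR ⟨x, hx⟩ ⟨y, hy⟩)
    · rw [Subgroup.orderOf_coe, ha]
  · have hi' : i = 1 := by omega
    subst hi'
    exfalso
    apply hcj
    refine ⟨g, ?_⟩
    ext x
    rw [mem_conjS, hQ₁]
    constructor
    · intro hx
      have hxN : x ∈ Subgroup.normalizer (Q : Set G) := Subgroup.le_normalizer hx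
      have hxk : (⟨x, hxN⟩ : Subgroup.normalizer (Q : Set G)) ∈ p.ker := (hpk2 _).2 hx
      have hxP : (⟨x, hxN⟩ : Subgroup.normalizer (Q : Set G)) ∈ R.comap p := by
        rw [Subgroup.mem_comap, (MonoidHom.mem_ker.1 hxk)]
        exact one_mem _
      obtain ⟨y, hy⟩ := (hker ⟨_, hxP⟩).1 ((hker2 _).2 hx)
      refine ⟨_, hmem y, ?_⟩
      have h1 := congrArg (fun z : R.comap p => ((z : Subgroup.normalizer (Q : Set G)) : G)) hy
      simp only [Subgroup.coe_pow, pow_one] at h1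
      have h2 := conj_pow (a := g⁻¹) (b := ((y : Subgroup.normalizer (Q : Set G)) : G)) (i := ℓ)
      rw [inv_inv] at h2
      rw [h2, h1]
    · rintro ⟨v, hv, hv2⟩
      obtain ⟨y, hy⟩ := hmem2 v hv
      have h1 := (hker2 (y ^ ℓ ^ 1)).1 ((hker _).2 ⟨y, rfl⟩)
      simp only [Subgroup.coe_pow, pow_one] at h1
      rw [hy, conj_pow, hv2] at h1
      have h2 : g * (g⁻¹ * x * g) * g⁻¹ = x := by group
      rwa [h2] at h1

end Pool.Agent.PP.C2.H27
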